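import Pool.Agent.R47.IRPathSmall
import Pool.Agent.R47.IRPathGen

/-!
MP_cd4b59_co, Q1: every path with at least seven vertices is an IR-graph.
-/

namespace Pool.Agent.Results.MP_cd4b59_co.AllPathsFromSeven

open Pool.Agent.R47.IRPath Pool.Agent.R47.IRPathGen

/-- Every path with at least seven vertices is an IR-graph. -/
theorem result : ∀ n : ℕ, 7 ≤ n →
    ∃ (V : Type) (_ : Fintype V) (_ : DecidableEq V) (G : SimpleGraph V),
      Nonempty (IRGraph G ≃g SimpleGraph.pathGraph n) := by
  intro n h1
  by_cases h2 : n ≤ 15
  · interval_cases n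
    · exact ⟨_, inferInstance, inferInstance, _, path7⟩
    · exact ⟨_, inferInstance, inferInstance, _, path8⟩
    · exact ⟨_, inferInstance, inferInstance, _, path9⟩
    · exact ⟨_, inferInstance, inferInstance, _, path10⟩
    · exact ⟨_, inferInstance, inferInstance, _, path11⟩
    · exact ⟨_, inferInstance, inferInstance, _, path12⟩
    · exact ⟨_, inferInstance, inferInstance, _, path13⟩
    · exact ⟨_, inferInstance, inferInstance, _, path14⟩
    · exact ⟨_, inferInstance, inferInstance, _, path15⟩
  · rcases Nat.even_or_odd' n with ⟨M, hM | hM⟩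
    · exact ⟨Option (Z M), inferInstance, inferInstance, G M False,
        iso (by omega) False n (Or.inl ⟨hM, id⟩)⟩
    · exact ⟨Option (Z M), inferInstance, inferInstance, G M True,
        iso (by omega) True n (Or.inr ⟨hM, trivial⟩)⟩

end Pool.Agent.Results.MP_cd4b59_co.AllPathsFromSeven
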